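import Mathlib

/-!
# Reduction of the 8-cycle double cover theorem to cubic graphs (piece T4 of CDC8)

A finite multigraph (loops allowed) is given by `s t : E → V`. Every vertex of degree `d` is
replaced by a circuit on its `d` darts.
-/

open Finset

namespace Pool.Agent.Helper12.CDC8

/-- a permutation of a finite type all of whose invariant sets are trivial. -/
private lemma exists_rot (A : Type) [Fintype A] :
    ∃ σ : Equiv.Perm A, ∀ P : A → Prop, (∀ a, P (σ a) ↔ P a) → ∀ a b, P a ↔ P b := by
  classical
  obtain ⟨n, hn⟩ : ∃ n, Fintype.card A = n := ⟨_, rfl⟩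
  let φ : A ≃ Fin n := Fintype.equivFinOfCardEq hn
  refine ⟨(φ.trans (finRotate n)).trans φ.symm, fun P hP => ?_⟩
  cases n with
  | zero => intro a; exact (φ a).elim0
  | succ n =>
    have hQ : ∀ i : Fin (n + 1), P (φ.symm (i + 1)) ↔ P (φ.symm i) := by
      intro i
      have := hP (φ.symm i)
      simpa using this
    have hall : ∀ i : Fin (n + 1), P (φ.symm i) ↔ P (φ.symm 0) := by
      intro i
      induction i using Fin.induction with
      | zero => exact Iff.rfl
      | succ i ih =>
        rw [← ih]
        have := hQ i.castSucc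
        rwa [Fin.coeSucc_eq_succ] at this
    intro a b
    have ha := hall (φ a)
    have hb := hall (φ b)
    rw [Equiv.symm_apply_apply] at ha hb
    rw [ha, hb]

/-- the rotation of the fibres of a map. -/
private lemma exists_next (A V : Type) [Fintype A] (w : A → V) :
    ∃ σ : Equiv.Perm A, (∀ a, w (σ a) = w a) ∧
      ∀ P : A → Prop, (∀ a, P (σ a) ↔ P a) → ∀ a b, w a = w b → (P a ↔ P b) := by
  classical
  choose ρ hρ using fun v : V => exists_rot {a : A // w a = v}
  let Φ : (Σ v : V, {a : A // w a = v}) ≃ A := Equiv.sigmaFiberEquiv w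
  let σ : Equiv.Perm A := (Φ.symm.trans (Equiv.sigmaCongrRight ρ)).trans Φ
  have hσ : ∀ a, σ a = (ρ (w a) ⟨a, rfl⟩ : {b : A // w b = w a}).1 := fun a => rfl
  refine ⟨σ, fun a => ?_, fun P hP a b hab => ?_⟩
  · rw [hσ]; exact (ρ (w a) ⟨a, rfl⟩).2
  · have key : ∀ v (c : {a : A // w a = v}), P (ρ v c).1 ↔ P c.1 := by
      rintro _ ⟨c, rfl⟩
      exact hP c
    exact hρ (w b) (fun c => P c.1) (key (w b)) ⟨a, hab⟩ ⟨b, rfl⟩

/-- the number of elements with a property. -/
private noncomputable def cnt {A : Type} [Fintype A] (p : A → Prop) : ℕ :=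
  ∑ a, @ite ℕ (p a) (Classical.propDecidable _) 1 0

private lemma card_eq_cnt {A : Type} [Fintype A] (p : A → Prop) [DecidablePred p] :
    (univ.filter p).card = cnt p := by
  rw [Finset.card_filter, cnt]
  exact Finset.sum_congr rfl fun a _ => by congr

private lemma card_filter_cnt {A : Type} [Fintype A] (D : Finset A) (p : A → Prop)
    [DecidablePred p] : (D.filter p).card = cnt (fun a => a ∈ D ∧ p a) := by
  classical
  rw [← card_eq_cnt]
  congr 1
  ext a
  simp

private lemma cnt_split {A B : Type} [Fintype A] [Fintype B] (p : A ⊕ B → Prop) :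
    cnt p = cnt (fun a : A => p (Sum.inl a)) + cnt (fun b : B => p (Sum.inr b)) := by
  rw [cnt, cnt, cnt, Fintype.sum_sum_type]

private lemma even_change (A : Type) [Fintype A] (σ : Equiv.Perm A) (X : Finset A) :
    Even (cnt (fun a : A => (a ∈ X) ≠ (σ a ∈ X))) := by
  classical
  rw [← ZMod.natCast_eq_zero_iff_even, cnt]
  push_cast
  have h2 : (∑ a : A, ((if a ∈ X then (1 : ZMod 2) else 0) + (if σ a ∈ X then 1 else 0))) = 0 := by
    rw [Finset.sum_add_distrib,
      Equiv.sum_comp σ (fun a => if a ∈ X then (1 : ZMod 2) else 0), ← two_mul]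
    have : (2 : ZMod 2) = 0 := rfl
    rw [this, zero_mul]
  refine Eq.trans (Finset.sum_congr rfl fun a _ => ?_) h2
  have h11 : (1 : ZMod 2) + 1 = 0 := rfl
  by_cases h : a ∈ X
  · by_cases h' : σ a ∈ X
    · rw [if_neg (by simp [h, h']), if_pos h, if_pos h', h11]
    · rw [if_pos (by simp [h, h']), if_pos h, if_neg h', add_zero]
  · by_cases h' : σ a ∈ X
    · rw [if_pos (by simp [h, h']), if_neg h, if_pos h', zero_add]
    · rw [if_neg (by simp [h, h']), if_neg h, if_neg h', add_zero]

open Classical in
private lemma cnt_single {A B : Type} [Fintype A] (q : A → Prop) (f : A → B) (b : B) (a₀ : A)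
    (h : ∀ a, f a = b ↔ a = a₀) : cnt (fun a => q a ∧ f a = b) = if q a₀ then 1 else 0 := by
  rw [cnt, Finset.sum_eq_single a₀]
  · have h0 : f a₀ = b := (h a₀).2 rfl
    by_cases hq : q a₀ <;> simp [hq, h0]
  · intro a _ ha
    rw [if_neg]
    rintro ⟨_, h'⟩
    exact ha ((h a).1 h')
  · intro h'
    exact absurd (mem_univ _) h'

open Classical in
private lemma cnt_none {A B : Type} [Fintype A] (q : A → Prop) (f : A → B) (b : B)
    (h : ∀ a, f a ≠ b) : cnt (fun a => q a ∧ f a = b) = 0 := by
  rw [cnt]
  refine Finset.sum_eq_zero fun a _ => ?_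
  rw [if_neg]
  rintro ⟨_, h'⟩
  exact h a h'

open Classical in
/-- **Reduction to cubic graphs.** -/
theorem reduce_to_cubic
    (hcubic : ∀ (V E : Type) [Fintype V] [Fintype E] [DecidableEq V] (s t : E → V),
      (∀ v, (univ.filter (fun e => s e = v)).card + (univ.filter (fun e => t e = v)).card = 3) →
      (∀ X : Finset V, (univ.filter (fun e => (s e ∈ X) ≠ (t e ∈ X))).card ≠ 1) →
      ∃ D : Fin 8 → Finset E,
        (∀ i v, Even (((D i).filter (fun e => s e = v)).card +
          ((D i).filter (fun e => t e = v)).card)) ∧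
        ∀ e, (univ.filter (fun i => e ∈ D i)).card = 2)
    (V E : Type) [Fintype V] [Fintype E] [DecidableEq V] (s t : E → V)
    (hnb : ∀ X : Finset V, (univ.filter (fun e => (s e ∈ X) ≠ (t e ∈ X))).card ≠ 1) :
    ∃ D : Fin 8 → Finset E,
      (∀ i v, Even (((D i).filter (fun e => s e = v)).card +
        ((D i).filter (fun e => t e = v)).card)) ∧
      ∀ e, (univ.filter (fun i => e ∈ D i)).card = 2 := by
  -- darts
  let w : E × Bool → V := fun d => if d.2 then t d.1 else s d.1
  obtain ⟨σ, hσw, hσP⟩ := exists_next (E × Bool) V w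
  let s' : E ⊕ (E × Bool) → E × Bool := Sum.elim (fun e => (e, false)) id
  let t' : E ⊕ (E × Bool) → E × Bool := Sum.elim (fun e => (e, true)) σ
  have hpair : ∀ (q : E → Prop) (d : E × Bool),
      cnt (fun e : E => q e ∧ (e, false) = d) + cnt (fun e : E => q e ∧ (e, true) = d) =
        if q d.1 then 1 else 0 := by
    rintro q ⟨e₀, b⟩
    cases b
    · rw [cnt_single q (fun e => (e, false)) (e₀, false) e₀ (fun a => by simp),
        cnt_none q (fun e => (e, true)) (e₀, false) (fun a => by simp)]
      simp
    · rw [cnt_single q (fun e => (e, true)) (e₀, true) e₀ (fun a => by simp),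
        cnt_none q (fun e => (e, false)) (e₀, true) (fun a => by simp)]
      simp
  have hid : ∀ (q : E × Bool → Prop) (d : E × Bool),
      cnt (fun d' : E × Bool => q d' ∧ d' = d) = if q d then 1 else 0 :=
    fun q d => cnt_single q (fun d' => d') d d (fun a => Iff.rfl)
  have hone : ∀ (q : E × Bool → Prop) (d : E × Bool),
      cnt (fun d' : E × Bool => q d' ∧ σ d' = d) = if q (σ.symm d) then 1 else 0 :=
    fun q d => cnt_single q (fun d' => σ d') d (σ.symm d) (fun a => by
      rw [Equiv.eq_symm_apply])
  have hs' : ∀ (q : E ⊕ (E × Bool) → Prop) (d : E × Bool),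
      cnt (fun x => q x ∧ s' x = d) + cnt (fun x => q x ∧ t' x = d) =
        (if q (Sum.inl d.1) then 1 else 0) + (if q (Sum.inr d) then 1 else 0) +
        (if q (Sum.inr (σ.symm d)) then 1 else 0) := by
    intro q d
    rw [cnt_split, cnt_split]
    have h1 := hpair (fun e => q (Sum.inl e)) d
    have h2 := hid (fun d' => q (Sum.inr d')) d
    have h3 := hone (fun d' => q (Sum.inr d')) d
    change (cnt (fun e : E => q (Sum.inl e) ∧ (e, false) = d) +
      cnt (fun d' : E × Bool => q (Sum.inr d') ∧ d' = d)) +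
      (cnt (fun e : E => q (Sum.inl e) ∧ (e, true) = d) +
      cnt (fun d' : E × Bool => q (Sum.inr d') ∧ σ d' = d)) = _
    rw [← h1, ← h2, ← h3]
    ring
  obtain ⟨D', hD1, hD2⟩ := hcubic (E × Bool) (E ⊕ (E × Bool)) s' t' (by
    intro d
    rw [card_eq_cnt, card_eq_cnt]
    have h := hs' (fun _ => True) d
    simp only [true_and, if_true] at h
    rw [h]) (by
    intro X hX
    rw [card_eq_cnt, cnt_split] at hX
    have hev := even_change (E × Bool) σ X
    change cnt (fun e : E => ((e, false) ∈ X) ≠ ((e, true) ∈ X)) +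
      cnt (fun d : E × Bool => (d ∈ X) ≠ (σ d ∈ X)) = 1 at hX
    obtain ⟨k, hk⟩ := hev
    have h0 : cnt (fun d : E × Bool => (d ∈ X) ≠ (σ d ∈ X)) = 0 := by omega
    have hinv : ∀ d : E × Bool, (σ d ∈ X) ↔ (d ∈ X) := by
      intro d
      rw [← card_eq_cnt, Finset.card_eq_zero, Finset.filter_eq_empty_iff] at h0
      have := h0 (mem_univ d)
      rw [not_not] at this
      rw [this]
    have hfib := hσP (fun d => d ∈ X) hinv
    apply hnb (X.image w)
    have hs : ∀ e, s e ∈ X.image w ↔ (e, false) ∈ X := by
      intro e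
      constructor
      · intro h
        obtain ⟨d, hd, hwd⟩ := Finset.mem_image.1 h
        exact (hfib d (e, false) (by rw [hwd]; simp [w])).1 hd
      · intro h
        exact Finset.mem_image.2 ⟨(e, false), h, by simp [w]⟩
    have ht : ∀ e, t e ∈ X.image w ↔ (e, true) ∈ X := by
      intro e
      constructor
      · intro h
        obtain ⟨d, hd, hwd⟩ := Finset.mem_image.1 h
        exact (hfib d (e, true) (by rw [hwd]; simp [w])).1 hd
      · intro h
        exact Finset.mem_image.2 ⟨(e, true), h, by simp [w]⟩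
    have hcongr : cnt (fun e => (s e ∈ X.image w) ≠ (t e ∈ X.image w)) =
        cnt (fun e : E => ((e, false) ∈ X) ≠ ((e, true) ∈ X)) := by
      congr 1
      ext e
      rw [propext (hs e), propext (ht e)]
    rw [card_eq_cnt, hcongr]
    omega)
  refine ⟨fun i => univ.filter (fun e => Sum.inl e ∈ D' i), fun i v => ?_, fun e => ?_⟩
  · -- local parity
    have hloc : ∀ d : E × Bool, ((if Sum.inl d.1 ∈ D' i then (1 : ZMod 2) else 0) +
        (if Sum.inr d ∈ D' i then 1 else 0)) + (if Sum.inr (σ.symm d) ∈ D' i then 1 else 0) = 0 := by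
      intro d
      have h := hD1 i d
      rw [card_filter_cnt, card_filter_cnt, hs' (fun x => x ∈ D' i) d] at h
      rw [← ZMod.natCast_eq_zero_iff_even] at h
      push_cast at h
      exact h
    have hsum : ∑ d ∈ univ.filter (fun d : E × Bool => w d = v),
        (if Sum.inl d.1 ∈ D' i then (1 : ZMod 2) else 0) = 0 := by
      have h := Finset.sum_congr (rfl : univ.filter (fun d : E × Bool => w d = v) = _)
        (fun d _ => hloc d)
      rw [Finset.sum_add_distrib, Finset.sum_add_distrib, Finset.sum_const_zero] at h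
      have hre : ∑ d ∈ univ.filter (fun d : E × Bool => w d = v),
          (if Sum.inr (σ.symm d) ∈ D' i then (1 : ZMod 2) else 0) =
          ∑ d ∈ univ.filter (fun d : E × Bool => w d = v),
          (if Sum.inr d ∈ D' i then (1 : ZMod 2) else 0) := by
        refine Finset.sum_nbij' (fun d => σ.symm d) (fun d => σ d) ?_ ?_ ?_ ?_ ?_
        · intro d hd
          rw [mem_filter] at hd ⊢
          refine ⟨mem_univ _, ?_⟩
          rw [← hd.2, ← hσw (σ.symm d), Equiv.apply_symm_apply]
        · intro d hd
          rw [mem_filter] at hd ⊢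
          exact ⟨mem_univ _, by rw [hσw]; exact hd.2⟩
        · intro d _; simp
        · intro d _; simp
        · intro d _; rfl
      rw [hre, add_assoc, ← two_mul, show (2 : ZMod 2) = 0 from rfl, zero_mul, add_zero] at h
      exact h
    rw [← ZMod.natCast_eq_zero_iff_even]
    rw [Finset.filter_filter, Finset.filter_filter, Finset.card_filter, Finset.card_filter]
    push_cast
    rw [← Finset.sum_add_distrib]
    rw [Finset.sum_filter, Fintype.sum_prod_type] at hsum
    refine Eq.trans (Finset.sum_congr rfl fun e _ => ?_) hsum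
    rw [Fintype.sum_bool]
    simp only [w, if_true, Bool.false_eq_true, if_false]
    by_cases h1 : Sum.inl e ∈ D' i
    · by_cases h2 : s e = v
      · by_cases h3 : t e = v
        · simp [h1, h2, h3]
        · simp [h1, h2, h3]
      · by_cases h3 : t e = v
        · simp [h1, h2, h3]
        · simp [h1, h2, h3]
    · simp [h1]
  · rw [← hD2 (Sum.inl e)]
    congr 1
    ext i
    simp

end Pool.Agent.Helper12.CDC8
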